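import Pool.Agent.Helper19.LB.Defs

/-!
Calculus of representable functionals.
-/

set_option autoImplicit false

open MeasureTheory Set Real Module
open scoped ContDiff RealInnerProductSpace

namespace Pool.Agent.Helper19.LB

theorem Rep.congr {k : ℕ} {r r' : (Pt → ℝ) → (Pt → ℝ) → ℝ} (h : Rep k r)
    (e : ∀ A B : Pt → ℝ, ContDiff ℝ ∞ A → ContDiff ℝ ∞ B → r A B = r' A B) : Rep k r' := by
  obtain ⟨la, lc, lb, h1, h2, h3, h4, h5, h6, h7, h8, h9, h10⟩ := h
  exact ⟨la, lc, lb, h1, h2, h3, h4, h5, h6, h7, h8, h9, fun A B hA hB =>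
    (h10 A B hA hB).trans (e A B hA hB)⟩

theorem rep_zero (k : ℕ) : Rep k (fun _ _ => 0) := by
  refine ⟨0, 0, 0, inferInstance, inferInstance, inferInstance, ?_, ?_, ?_, ?_, ?_, ?_, ?_⟩
  · simp
  · simp
  · simp
  · exact integrable_zero_measure
  · exact integrable_zero_measure
  · exact integrable_zero_measure
  · intro A B _ _
    simp

/-! ### continuity and integrability -/

lemma continuous_dr {A : Pt → ℝ} (hA : ContDiff ℝ ∞ A) : Continuous (dr A) := by
  unfold dr
  exact (hA.continuous_fderiv (by simp)).clm_apply continuous_const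

lemma continuous_dz {A : Pt → ℝ} (hA : ContDiff ℝ ∞ A) : Continuous (dz A) := by
  unfold dz
  exact (hA.continuous_fderiv (by simp)).clm_apply continuous_const

lemma isCompact_cdisc : IsCompact {x : Pt | x.1 ^ 2 + x.2 ^ 2 ≤ 1} := by
  have h1 : IsCompact (Icc (-1 : ℝ) 1 ×ˢ Icc (-1 : ℝ) 1) := isCompact_Icc.prod isCompact_Icc
  refine h1.of_isClosed_subset (isClosed_le (by fun_prop) continuous_const) ?_
  intro x hx
  have hx' : x.1 ^ 2 + x.2 ^ 2 ≤ 1 := hx
  refine ⟨⟨?_, ?_⟩, ⟨?_, ?_⟩⟩ <;> nlinarith [sq_nonneg x.1, sq_nonneg x.2]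

lemma disc_subset : disc ⊆ {x : Pt | x.1 ^ 2 + x.2 ^ 2 ≤ 1} := fun _ hx => hx.2

lemma measurableSet_disc : MeasurableSet disc := by
  refine MeasurableSet.inter ?_ ?_
  · exact measurableSet_lt measurable_const measurable_fst
  · have h : Measurable fun x : Pt => x.1 ^ 2 + x.2 ^ 2 := by fun_prop
    exact measurableSet_le h measurable_const

lemma measurableSet_circle :
    MeasurableSet {x : Pt × Pt | x.1 ∈ disc ∧ x.2.1 ^ 2 + x.2.2 ^ 2 = 1} := by
  refine MeasurableSet.inter (measurable_fst measurableSet_disc) ?_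
  have h : Measurable fun x : Pt × Pt => x.2.1 ^ 2 + x.2.2 ^ 2 := by fun_prop
  exact measurableSet_eq_fun h measurable_const

lemma bdd_disc {F : Pt → ℝ} (hF : Continuous F) : ∃ C, ∀ x ∈ disc, ‖F x‖ ≤ C := by
  obtain ⟨C, hC⟩ := isCompact_cdisc.exists_bound_of_continuousOn hF.continuousOn
  exact ⟨C, fun x hx => hC x (disc_subset hx)⟩

lemma integrable_of_cont {μ : Measure Pt} [IsFiniteMeasure μ] (hd : ∀ᵐ x ∂μ, x ∈ disc)
    {F : Pt → ℝ} (hF : Continuous F) : Integrable F μ := by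
  obtain ⟨C, hC⟩ := bdd_disc hF
  exact Integrable.of_bound hF.aestronglyMeasurable C (hd.mono fun x hx => hC x hx)

lemma integrable_div {μ : Measure Pt} (hd : ∀ᵐ x ∂μ, x ∈ disc)
    (hi : Integrable (fun x : Pt => 1 / x.1) μ) {F : Pt → ℝ} (hF : Continuous F) :
    Integrable (fun x : Pt => F x / x.1) μ := by
  obtain ⟨C, hC⟩ := bdd_disc hF
  have h := hi.bdd_mul (c := C) hF.aestronglyMeasurable (hd.mono fun x hx => hC x hx)
  refine h.congr (Filter.Eventually.of_forall fun x => ?_)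
  show F x * (1 / x.1) = F x / x.1
  ring

lemma integrable_La {k : ℕ} {μ : Measure Pt} [IsFiniteMeasure μ] (hd : ∀ᵐ x ∂μ, x ∈ disc)
    (hi : Integrable (fun x : Pt => 1 / x.1) μ) {A B : Pt → ℝ} (hA : ContDiff ℝ ∞ A)
    (hB : ContDiff ℝ ∞ B) : Integrable (fun x => La k A B x) μ := by
  unfold La
  exact ((integrable_of_cont hd (continuous_dr hA)).add
    (integrable_of_cont hd (continuous_dz hB))).add
      ((integrable_div hd hi hA.continuous).const_mul _)

lemma integrable_Lc {k : ℕ} {μ : Measure Pt} (hd : ∀ᵐ x ∂μ, x ∈ disc)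
    (hi : Integrable (fun x : Pt => 1 / x.1) μ) {A : Pt → ℝ} (hA : ContDiff ℝ ∞ A) :
    Integrable (fun x => Lc k A x) μ := by
  unfold Lc
  exact (integrable_div hd hi hA.continuous).const_mul _

lemma integrable_Lb {k : ℕ} {μ : Measure (Pt × Pt)} [IsFiniteMeasure μ]
    (hd : ∀ᵐ x ∂μ, x.1 ∈ disc ∧ x.2.1 ^ 2 + x.2.2 ^ 2 = 1)
    (hi : Integrable (fun x : Pt × Pt => 1 / x.1.1) μ) {A B : Pt → ℝ} (hA : ContDiff ℝ ∞ A)
    (hB : ContDiff ℝ ∞ B) : Integrable (fun x => Lb k A B x.1 x.2) μ := by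
  unfold Lb
  have h1 : Continuous fun x : Pt × Pt => x.2.1 ^ 2 * dr A x.1 +
      x.2.1 * x.2.2 * (dz A x.1 + dr B x.1) + x.2.2 ^ 2 * dz B x.1 := by
    have a1 := (continuous_dr hA).comp (continuous_fst (X := Pt) (Y := Pt))
    have a2 := (continuous_dz hA).comp (continuous_fst (X := Pt) (Y := Pt))
    have a3 := (continuous_dr hB).comp (continuous_fst (X := Pt) (Y := Pt))
    have a4 := (continuous_dz hB).comp (continuous_fst (X := Pt) (Y := Pt))
    have b1 : Continuous fun x : Pt × Pt => x.2.1 := by fun_prop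
    have b2 : Continuous fun x : Pt × Pt => x.2.2 := by fun_prop
    exact (((b1.pow 2).mul a1).add ((b1.mul b2).mul (a2.add a3))).add ((b2.pow 2).mul a4)
  obtain ⟨C, hC⟩ := (isCompact_cdisc.prod isCompact_cdisc).exists_bound_of_continuousOn
    h1.continuousOn
  have h2 : Integrable (fun x : Pt × Pt => x.2.1 ^ 2 * dr A x.1 +
      x.2.1 * x.2.2 * (dz A x.1 + dr B x.1) + x.2.2 ^ 2 * dz B x.1) μ :=
    Integrable.of_bound h1.aestronglyMeasurable C
      (hd.mono fun x hx => hC x ⟨disc_subset hx.1, hx.2.le⟩)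
  obtain ⟨C', hC'⟩ := bdd_disc hA.continuous
  have h3 : Integrable (fun x : Pt × Pt => A x.1 * (1 / x.1.1)) μ :=
    hi.bdd_mul (c := C') (hA.continuous.comp continuous_fst).aestronglyMeasurable
      (hd.mono fun x hx => hC' x.1 hx.1)
  have h4 : Integrable (fun x : Pt × Pt => ((k : ℝ) - 1) * (A x.1 / x.1.1)) μ := by
    refine (h3.const_mul ((k : ℝ) - 1)).congr (Filter.Eventually.of_forall fun x => ?_)
    show ((k : ℝ) - 1) * (A x.1 * (1 / x.1.1)) = ((k : ℝ) - 1) * (A x.1 / x.1.1)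
    ring
  exact h2.add h4

theorem Rep.add {k : ℕ} {r r' : (Pt → ℝ) → (Pt → ℝ) → ℝ} (h : Rep k r) (h' : Rep k r') :
    Rep k (fun A B => r A B + r' A B) := by
  obtain ⟨la, lc, lb, h1, h2, h3, h4, h5, h6, h7, h8, h9, h10⟩ := h
  obtain ⟨la', lc', lb', g1, g2, g3, g4, g5, g6, g7, g8, g9, g10⟩ := h'
  refine ⟨la + la', lc + lc', lb + lb', inferInstance, inferInstance, inferInstance,
    ae_add_measure_iff.mpr ⟨h4, g4⟩, ae_add_measure_iff.mpr ⟨h5, g5⟩,
    ae_add_measure_iff.mpr ⟨h6, g6⟩, h7.add_measure g7, h8.add_measure g8, h9.add_measure g9, ?_⟩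
  intro A B hA hB
  show _ = r A B + r' A B
  rw [integral_add_measure (integrable_La h4 h7 hA hB) (integrable_La g4 g7 hA hB),
    integral_add_measure (integrable_Lb h5 h8 hA hB) (integrable_Lb g5 g8 hA hB),
    integral_add_measure (integrable_Lc h6 h9 hA) (integrable_Lc g6 g9 hA), ← h10 A B hA hB,
    ← g10 A B hA hB]
  ring

/-! ### push forwards -/

lemma push {Ω X : Type} [MeasurableSpace Ω] [MeasurableSpace X] (ν : Measure Ω) {g : Ω → X}
    (hg : AEMeasurable g ν) {m : Ω → ℝ} (hm : Integrable m ν) (h0 : ∀ᵐ x ∂ν, 0 ≤ m x) :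
    ∃ μ : Measure X, IsFiniteMeasure μ ∧
      (∀ S : Set X, MeasurableSet S → (∀ᵐ x ∂ν, g x ∈ S) → ∀ᵐ x ∂μ, x ∈ S) ∧
      (∀ F : X → ℝ, Measurable F → Integrable (fun x => m x * F (g x)) ν → Integrable F μ) ∧
      ∀ F : X → ℝ, Measurable F → ∫ x, F x ∂μ = ∫ x, m x * F (g x) ∂ν := by
  set ν' : Measure Ω := ν.withDensity fun x => ENNReal.ofReal (m x) with hν'
  have hac : ν' ≪ ν := withDensity_absolutelyContinuous _ _
  have hg' : AEMeasurable g ν' := hg.mono_ac hac
  have hfin : IsFiniteMeasure ν' := isFiniteMeasure_withDensity_ofReal hm.2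
  have hmm : AEMeasurable (fun x => ENNReal.ofReal (m x)) ν :=
    hm.aestronglyMeasurable.aemeasurable.ennreal_ofReal
  have hlt : ∀ᵐ x ∂ν, ENNReal.ofReal (m x) < ⊤ :=
    Filter.Eventually.of_forall fun _ => ENNReal.ofReal_lt_top
  refine ⟨ν'.map g, inferInstance, ?_, ?_, ?_⟩
  · intro S hS h
    exact (ae_map_iff hg' hS).mpr (hac.ae_le h)
  · intro F hF h
    rw [integrable_map_measure hF.aestronglyMeasurable hg', hν',
      integrable_withDensity_iff_integrable_smul₀' hmm hlt]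
    refine h.congr ?_
    filter_upwards [h0] with x hx
    show m x * F (g x) = (ENNReal.ofReal (m x)).toReal • F (g x)
    rw [ENNReal.toReal_ofReal hx, smul_eq_mul]
  · intro F hF
    rw [integral_map hg' hF.aestronglyMeasurable, hν',
      integral_withDensity_eq_integral_toReal_smul₀ hmm hlt]
    refine integral_congr_ae ?_
    filter_upwards [h0] with x hx
    show (ENNReal.ofReal (m x)).toReal • F (g x) = m x * F (g x)
    rw [ENNReal.toReal_ofReal hx, smul_eq_mul]

lemma measurable_La {k : ℕ} {A B : Pt → ℝ} (hA : ContDiff ℝ ∞ A) (hB : ContDiff ℝ ∞ B) :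
    Measurable (fun x => La k A B x) := by
  unfold La
  exact ((continuous_dr hA).measurable.add (continuous_dz hB).measurable).add
    ((hA.continuous.measurable.div measurable_fst).const_mul _)

lemma measurable_Lc {k : ℕ} {A : Pt → ℝ} (hA : ContDiff ℝ ∞ A) :
    Measurable (fun x => Lc k A x) := by
  unfold Lc
  exact (hA.continuous.measurable.div measurable_fst).const_mul _

lemma measurable_Lb {k : ℕ} {A B : Pt → ℝ} (hA : ContDiff ℝ ∞ A) (hB : ContDiff ℝ ∞ B) :
    Measurable (fun x : Pt × Pt => Lb k A B x.1 x.2) := by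
  unfold Lb
  have h1 : Measurable (Prod.fst : Pt × Pt → Pt) := measurable_fst
  have a1 : Measurable fun x : Pt × Pt => dr A x.1 := (continuous_dr hA).measurable.comp h1
  have a2 : Measurable fun x : Pt × Pt => dz A x.1 := (continuous_dz hA).measurable.comp h1
  have a3 : Measurable fun x : Pt × Pt => dr B x.1 := (continuous_dr hB).measurable.comp h1
  have a4 : Measurable fun x : Pt × Pt => dz B x.1 := (continuous_dz hB).measurable.comp h1
  have a5 : Measurable fun x : Pt × Pt => A x.1 := hA.continuous.measurable.comp h1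
  have b1 : Measurable fun x : Pt × Pt => x.2.1 := by fun_prop
  have b2 : Measurable fun x : Pt × Pt => x.2.2 := by fun_prop
  have b3 : Measurable fun x : Pt × Pt => x.1.1 := by fun_prop
  exact ((((b1.pow_const 2).mul a1).add ((b1.mul b2).mul (a2.add a3))).add
    ((b2.pow_const 2).mul a4)).add ((a5.div b3).const_mul _)

theorem rep_a {k : ℕ} {Ω : Type} [MeasurableSpace Ω] (ν : Measure Ω) {g : Ω → Pt}
    (hg : AEMeasurable g ν) {m : Ω → ℝ} (hm : Integrable m ν) (h0 : ∀ᵐ x ∂ν, 0 ≤ m x)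
    (hd : ∀ᵐ x ∂ν, g x ∈ disc) (hi : Integrable (fun x => m x / (g x).1) ν) :
    Rep k (fun A B => ∫ x, m x * La k A B (g x) ∂ν) := by
  obtain ⟨μ, h1, h2, h3, h4⟩ := push ν hg hm h0
  refine ⟨μ, 0, 0, h1, inferInstance, inferInstance, h2 _ measurableSet_disc hd, by simp, by simp,
    h3 _ (measurable_const.div measurable_fst) (hi.congr (Filter.Eventually.of_forall fun x => ?_)),
    integrable_zero_measure, integrable_zero_measure, ?_⟩
  · show m x / (g x).1 = m x * (1 / (g x).1)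
    ring
  · intro A B hA hB
    rw [h4 _ (measurable_La hA hB)]
    simp

theorem rep_b {k : ℕ} {Ω : Type} [MeasurableSpace Ω] (ν : Measure Ω) {g : Ω → Pt × Pt}
    (hg : AEMeasurable g ν) {m : Ω → ℝ} (hm : Integrable m ν) (h0 : ∀ᵐ x ∂ν, 0 ≤ m x)
    (hd : ∀ᵐ x ∂ν, (g x).1 ∈ disc ∧ (g x).2.1 ^ 2 + (g x).2.2 ^ 2 = 1)
    (hi : Integrable (fun x => m x / (g x).1.1) ν) :
    Rep k (fun A B => ∫ x, m x * Lb k A B (g x).1 (g x).2 ∂ν) := by
  obtain ⟨μ, h1, h2, h3, h4⟩ := push ν hg hm h0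
  refine ⟨0, 0, μ, inferInstance, h1, inferInstance, by simp, h2 _ measurableSet_circle hd, by simp,
    integrable_zero_measure, h3 (fun x : Pt × Pt => 1 / x.1.1) (by fun_prop)
      (hi.congr (Filter.Eventually.of_forall fun x => ?_)), integrable_zero_measure, ?_⟩
  · show m x / (g x).1.1 = m x * (1 / (g x).1.1)
    ring
  · intro A B hA hB
    rw [h4 (fun x : Pt × Pt => Lb k A B x.1 x.2) (measurable_Lb hA hB)]
    simp

theorem rep_c {k : ℕ} {Ω : Type} [MeasurableSpace Ω] (ν : Measure Ω) {g : Ω → Pt}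
    (hg : AEMeasurable g ν) {m : Ω → ℝ} (hm : Integrable m ν) (h0 : ∀ᵐ x ∂ν, 0 ≤ m x)
    (hd : ∀ᵐ x ∂ν, g x ∈ disc) (hi : Integrable (fun x => m x / (g x).1) ν) :
    Rep k (fun A _ => ∫ x, m x * Lc k A (g x) ∂ν) := by
  obtain ⟨μ, h1, h2, h3, h4⟩ := push ν hg hm h0
  refine ⟨0, μ, 0, inferInstance, inferInstance, h1, by simp, by simp, h2 _ measurableSet_disc hd,
    integrable_zero_measure, integrable_zero_measure,
    h3 _ (measurable_const.div measurable_fst) (hi.congr (Filter.Eventually.of_forall fun x => ?_)),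
    ?_⟩
  · show m x / (g x).1 = m x * (1 / (g x).1)
    ring
  · intro A B hA hB
    rw [h4 _ (measurable_Lc hA)]
    simp

end Pool.Agent.Helper19.LB
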